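import Mathlib

/-! Single-valued solutions of `-ψ'' + U ψ = E ψ` near a double pole of `U`. -/

namespace Q170.MP
open Filter Topology Set

/-- The punctured disc. -/
def Punct (x₀ : ℂ) (r : ℝ) : Set ℂ := Metric.ball x₀ r \ {x₀}

/-- Every solution of `-ψ'' + U ψ = E ψ` has trivial monodromy around `x₀`: on some punctured disc
around `x₀` the potential is holomorphic and every initial value problem has a single-valued
holomorphic solution. -/
def TrivialMonodromy (U : ℂ → ℂ) (E x₀ : ℂ) : Prop :=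
  ∃ r : ℝ, 0 < r ∧ DifferentiableOn ℂ U (Punct x₀ r) ∧
    ∀ x₁ ∈ Punct x₀ r, ∀ a b : ℂ, ∃ ψ : ℂ → ℂ, DifferentiableOn ℂ ψ (Punct x₀ r) ∧
      ψ x₁ = a ∧ deriv ψ x₁ = b ∧
      ∀ x ∈ Punct x₀ r, -deriv (deriv ψ) x + U x * ψ x = E * ψ x

lemma isOpen_punct (x₀ : ℂ) (r : ℝ) : IsOpen (Punct x₀ r) :=
  Metric.isOpen_ball.sdiff isClosed_singleton

lemma mem_punct {x₀ x : ℂ} {r : ℝ} : x ∈ Punct x₀ r ↔ ‖x - x₀‖ < r ∧ x ≠ x₀ := by
  simp [Punct, dist_eq_norm]

lemma punct_mem_nhdsNE (x₀ : ℂ) {r : ℝ} (hr : 0 < r) : Punct x₀ r ∈ 𝓝[≠] x₀ := by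
  rw [Punct, Set.sdiff_eq, inter_comm]
  exact inter_mem_nhdsWithin _ (Metric.ball_mem_nhds x₀ hr)

lemma punct_preconnected (x₀ : ℂ) (r : ℝ) (hr : 0 < r) : IsPreconnected (Punct x₀ r) := by
  have h1 : Punct x₀ r = (fun z => x₀ + Complex.exp z) '' {z : ℂ | z.re < Real.log r} := by
    ext x
    rw [mem_punct, mem_image]
    constructor
    · rintro ⟨h1, h2⟩
      have h3 : x - x₀ ≠ 0 := sub_ne_zero.mpr h2
      refine ⟨Complex.log (x - x₀), ?_, ?_⟩
      · change (Complex.log (x - x₀)).re < Real.log r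
        rw [Complex.log_re]
        exact Real.log_lt_log (norm_pos_iff.mpr h3) h1
      · rw [Complex.exp_log h3]
        ring
    · rintro ⟨z, hz, rfl⟩
      change z.re < Real.log r at hz
      refine ⟨?_, ?_⟩
      · rw [add_sub_cancel_left, Complex.norm_exp]
        calc Real.exp z.re < Real.exp (Real.log r) := Real.exp_lt_exp.mpr hz
          _ = r := Real.exp_log hr
      · intro h
        have : Complex.exp z = 0 := by
          have h' : x₀ + Complex.exp z = x₀ + 0 := by rw [h, add_zero]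
          exact add_left_cancel h'
        exact Complex.exp_ne_zero z this
  rw [h1]
  refine IsPreconnected.image ?_ _ ?_
  · exact (convex_halfSpace_re_lt _).isPreconnected
  · exact (continuous_const.add Complex.continuous_exp).continuousOn

/-- Growth of a solution near the singularity. -/
lemma growth {x₀ : ℂ} {r r₀ : ℝ} (h0 : 0 < r₀) (h1 : r₀ < r) {U ψ : ℂ → ℂ}
    (hψ : DifferentiableOn ℂ ψ (Punct x₀ r))
    (hode : ∀ x ∈ Punct x₀ r, deriv (deriv ψ) x = U x * ψ x) (K : ℕ)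
    (hK : ∀ x ∈ Punct x₀ r, ‖x - x₀‖ ≤ r₀ → 1 + ‖(x - x₀) ^ 2 * U x‖ ≤ K) :
    ∃ B : ℝ, 0 ≤ B ∧ ∀ x, x ≠ x₀ → ‖x - x₀‖ ≤ r₀ → ‖ψ x‖ ≤ B * (r₀ / ‖x - x₀‖) ^ K := by
  have hO := isOpen_punct x₀ r
  have hd : DifferentiableOn ℂ (deriv ψ) (Punct x₀ r) := hψ.deriv hO
  have hsph : Metric.sphere x₀ r₀ ⊆ Punct x₀ r := by
    intro x hx
    rw [mem_sphere_iff_norm] at hx
    rw [mem_punct]
    refine ⟨by rw [hx]; exact h1, ?_⟩
    rintro rfl
    rw [sub_self, norm_zero] at hx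
    exact h0.ne hx
  have hc : ContinuousOn (fun x => (ψ x, (x - x₀) * deriv ψ x)) (Metric.sphere x₀ r₀) := by
    refine ContinuousOn.prodMk (hψ.continuousOn.mono hsph) ?_
    exact ((continuous_id.sub continuous_const).continuousOn).mul (hd.continuousOn.mono hsph)
  obtain ⟨B, hB⟩ := (isCompact_sphere x₀ r₀).exists_bound_of_continuousOn hc
  have hB0 : 0 ≤ max B 0 := le_max_right _ _
  refine ⟨max B 0, hB0, fun x hx hx0 => ?_⟩
  have hs : 0 < ‖x - x₀‖ := norm_pos_iff.mpr (sub_ne_zero.mpr hx)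
  set s₀ : ℂ := ((r₀ / ‖x - x₀‖ : ℝ) : ℂ) * (x - x₀) with hs₀
  have hns₀ : ‖s₀‖ = r₀ := by
    rw [hs₀, norm_mul, Complex.norm_real, Real.norm_eq_abs, abs_of_pos (by positivity)]
    field_simp
  have hs₀0 : s₀ ≠ 0 := by
    rw [← norm_pos_iff, hns₀]; exact h0
  set τ := Real.log (r₀ / ‖x - x₀‖) with hτ
  have hτ0 : 0 ≤ τ := Real.log_nonneg (by rw [le_div_iff₀ hs]; linarith)
  let p : ℝ → ℂ := fun t => s₀ * Complex.exp (-(t : ℂ))
  have hp : ∀ t, ‖p t‖ = r₀ * Real.exp (-t) := by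
    intro t
    simp only [p]
    rw [norm_mul, hns₀, Complex.norm_exp]
    simp
  have hp0 : ∀ t, p t ≠ 0 := fun t => mul_ne_zero hs₀0 (Complex.exp_ne_zero _)
  have hpmem : ∀ t, 0 ≤ t → x₀ + p t ∈ Punct x₀ r := by
    intro t ht
    rw [mem_punct, add_sub_cancel_left, hp]
    refine ⟨?_, ?_⟩
    · have : Real.exp (-t) ≤ 1 := Real.exp_le_one_iff.mpr (by linarith)
      nlinarith
    · intro h
      exact hp0 t (by simpa using h)
  have hpd : ∀ t, HasDerivAt (fun t : ℝ => x₀ + p t) (-(p t)) t := by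
    intro t
    have h1' : HasDerivAt (fun t : ℝ => (t : ℂ)) 1 t := Complex.ofRealCLM.hasDerivAt (x := t)
    have h2 : HasDerivAt (fun t : ℝ => -(t : ℂ)) (-1) t := h1'.fun_neg
    have h3 : HasDerivAt (fun t : ℝ => x₀ + s₀ * Complex.exp (-(t : ℂ)))
      (s₀ * (Complex.exp (-(t : ℂ)) * (-1))) t := (h2.cexp.const_mul s₀).const_add x₀
    refine h3.congr_deriv ?_
    change s₀ * (Complex.exp (-(t : ℂ)) * (-1)) = -(s₀ * Complex.exp (-(t : ℂ)))
    ring
  let f : ℝ → ℂ × ℂ := fun t => (ψ (x₀ + p t), p t * deriv ψ (x₀ + p t))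
  let f' : ℝ → ℂ × ℂ := fun t => (-(p t * deriv ψ (x₀ + p t)),
    -(p t * deriv ψ (x₀ + p t)) - (p t) ^ 2 * U (x₀ + p t) * ψ (x₀ + p t))
  have hf : ∀ t, 0 ≤ t → HasDerivAt f (f' t) t := by
    intro t ht
    have hm := hpmem t ht
    have e1 : HasDerivAt ψ (deriv ψ (x₀ + p t)) (x₀ + p t) :=
      (hψ.differentiableAt (hO.mem_nhds hm)).hasDerivAt
    have e2 : HasDerivAt (deriv ψ) (U (x₀ + p t) * ψ (x₀ + p t)) (x₀ + p t) := by
      rw [← hode _ hm]
      exact (hd.differentiableAt (hO.mem_nhds hm)).hasDerivAt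
    have e3 := e1.comp t (hpd t)
    have e4 := e2.comp t (hpd t)
    have e5 : HasDerivAt p (-(p t)) t := by
      have := (hpd t).sub_const x₀
      simpa using this
    have e6 := e5.mul e4
    refine (e3.prodMk e6).congr_deriv ?_
    simp only [f', Function.comp]
    ext <;> simp <;> ring
  have hK1 : (1 : ℝ) ≤ K := by
    have := hK (x₀ + p 0) (hpmem 0 le_rfl) (by
      rw [add_sub_cancel_left, hp]; simp)
    have h3 := norm_nonneg ((x₀ + p 0 - x₀) ^ 2 * U (x₀ + p 0))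
    linarith
  have hgr := norm_le_gronwallBound_of_norm_deriv_right_le (f := f) (f' := f') (δ := max B 0)
    (K := K) (ε := 0) (a := 0) (b := τ)
    (fun t ht => (hf t ht.1).continuousAt.continuousWithinAt)
    (fun t ht => (hf t ht.1).hasDerivWithinAt) ?_ ?_ τ ⟨hτ0, le_rfl⟩
  · rw [gronwallBound_ε0, sub_zero] at hgr
    have hpτ : x₀ + p τ = x := by
      simp only [p]
      have h2 : Complex.exp (-(τ : ℂ)) = ((‖x - x₀‖ / r₀ : ℝ) : ℂ) := by
        rw [← Complex.ofReal_neg, ← Complex.ofReal_exp, hτ, Real.exp_neg, Real.exp_log (by positivity)]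
        rw [inv_div]
      rw [h2, hs₀]
      have h3 : ((r₀ / ‖x - x₀‖ : ℝ) : ℂ) * (x - x₀) * ((‖x - x₀‖ / r₀ : ℝ) : ℂ) = x - x₀ := by
        rw [mul_right_comm, ← Complex.ofReal_mul]
        have : r₀ / ‖x - x₀‖ * (‖x - x₀‖ / r₀) = 1 := by field_simp
        rw [this]
        simp
      rw [h3]
      ring
    have h4 : ‖ψ x‖ ≤ ‖f τ‖ := by
      have := norm_fst_le (f τ)
      simp only [f] at this
      rw [hpτ] at this
      simpa only [f, hpτ] using this
    have h5 : Real.exp (K * τ) = (r₀ / ‖x - x₀‖) ^ K := by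
      rw [Real.exp_nat_mul, hτ, Real.exp_log (by positivity)]
    rw [h5] at hgr
    exact h4.trans hgr
  · have h2 := hB (x₀ + p 0) (by
      rw [mem_sphere_iff_norm, add_sub_cancel_left, hp]; simp)
    have h3 : f 0 = (ψ (x₀ + p 0), (x₀ + p 0 - x₀) * deriv ψ (x₀ + p 0)) := by
      simp only [f, add_sub_cancel_left]
    rw [h3]
    exact h2.trans (le_max_left _ _)
  · intro t ht
    rw [add_zero]
    have hm := hpmem t ht.1
    have hb := hK _ hm (by
      rw [add_sub_cancel_left, hp]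
      have : Real.exp (-t) ≤ 1 := Real.exp_le_one_iff.mpr (by linarith [ht.1])
      nlinarith)
    rw [add_sub_cancel_left] at hb
    have e1 : ‖ψ (x₀ + p t)‖ ≤ ‖f t‖ := norm_fst_le (f t)
    have e2 : ‖p t * deriv ψ (x₀ + p t)‖ ≤ ‖f t‖ := norm_snd_le (f t)
    have hn := norm_nonneg (f t)
    rw [Prod.norm_def, max_le_iff]
    constructor
    · simp only [f']
      rw [norm_neg]
      nlinarith
    · simp only [f']
      have e3 : ‖-(p t * deriv ψ (x₀ + p t)) - (p t) ^ 2 * U (x₀ + p t) * ψ (x₀ + p t)‖ ≤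
          ‖p t * deriv ψ (x₀ + p t)‖ + ‖(p t) ^ 2 * U (x₀ + p t)‖ * ‖ψ (x₀ + p t)‖ := by
        refine (norm_sub_le _ _).trans ?_
        rw [norm_neg, norm_mul ((p t) ^ 2 * U (x₀ + p t))]
      have e4 := mul_le_mul_of_nonneg_left e1 (norm_nonneg ((p t) ^ 2 * U (x₀ + p t)))
      nlinarith

/-- A single-valued solution has the form `(x - x₀)^N φ`. -/
lemma frobenius {x₀ : ℂ} {r : ℝ} (hr : 0 < r) {U ψ G : ℂ → ℂ}
    (hψ : DifferentiableOn ℂ ψ (Punct x₀ r))
    (hode : ∀ x ∈ Punct x₀ r, deriv (deriv ψ) x = U x * ψ x)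
    (hG : AnalyticAt ℂ G x₀) (hU : ∀ᶠ x in 𝓝[≠] x₀, (x - x₀) ^ 2 * U x = G x)
    (hne : ¬ ∀ᶠ x in 𝓝[≠] x₀, ψ x = 0) :
    ∃ (N : ℤ) (φ : ℂ → ℂ), AnalyticAt ℂ φ x₀ ∧ φ x₀ ≠ 0 ∧
      (∀ᶠ x in 𝓝[≠] x₀, ψ x = (x - x₀) ^ N * φ x) ∧
      (∀ᶠ x in 𝓝[≠] x₀, G x * φ x = (N : ℂ) * (N - 1) * φ x + 2 * N * (x - x₀) * deriv φ x +
        (x - x₀) ^ 2 * deriv (deriv φ) x) ∧ (N : ℂ) * (N - 1) = G x₀ := by
  -- bound for G near x₀
  have hGb : ∀ᶠ x in 𝓝 x₀, ‖G x‖ ≤ ‖G x₀‖ + 1 := by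
    have := hG.continuousAt.norm
    exact (this.eventually (eventually_le_nhds (show ‖G x₀‖ < ‖G x₀‖ + 1 by linarith)))
  obtain ⟨K, hK⟩ := exists_nat_ge (2 + ‖G x₀‖)
  have hev : ∀ᶠ x in 𝓝 x₀, x ≠ x₀ → 1 + ‖(x - x₀) ^ 2 * U x‖ ≤ K := by
    rw [eventually_nhdsWithin_iff] at hU
    filter_upwards [hGb, hU] with x h1 h2 h3
    rw [h2 h3]
    linarith
  obtain ⟨δ, hδ, hδ'⟩ := Metric.eventually_nhds_iff.mp hev
  set r₀ := min (δ / 2) (r / 2) with hr₀
  have hr₀0 : 0 < r₀ := lt_min (by linarith) (by linarith)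
  have hr₀r : r₀ < r := lt_of_le_of_lt (min_le_right _ _) (by linarith)
  have hr₀δ : r₀ < δ := lt_of_le_of_lt (min_le_left _ _) (by linarith)
  obtain ⟨B, hB0, hB⟩ := growth hr₀0 hr₀r hψ hode K (fun x hx hx0 => by
    refine hδ' ?_ (mem_punct.mp hx).2
    rw [dist_eq_norm]
    linarith)
  set F : ℂ → ℂ := fun x => (x - x₀) ^ (K + 1) * ψ x with hF
  have hO := isOpen_punct x₀ r
  have hFan : AnalyticAt ℂ F x₀ := by
    refine Complex.analyticAt_of_differentiable_on_punctured_nhds_of_continuousAt ?_ ?_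
    · filter_upwards [punct_mem_nhdsNE x₀ hr] with x hx
      exact ((differentiableAt_id.sub_const x₀).pow (K + 1)).mul
        (hψ.differentiableAt (hO.mem_nhds hx))
    · have hF0 : F x₀ = 0 := by simp [hF]
      rw [ContinuousAt, hF0]
      have hlim : Tendsto (fun x : ℂ => B * r₀ ^ K * ‖x - x₀‖) (𝓝 x₀) (𝓝 0) := by
        have h2 : Tendsto (fun x : ℂ => B * r₀ ^ K * ‖x - x₀‖) (𝓝 x₀) (𝓝 (B * r₀ ^ K * ‖x₀ - x₀‖)) :=
          (continuous_const.mul (continuous_id.sub continuous_const).norm).tendsto x₀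
        simpa using h2
      refine squeeze_zero_norm' ?_ hlim
      filter_upwards [Metric.ball_mem_nhds x₀ hr₀0] with x hx
      rw [mem_ball_iff_norm] at hx
      rcases eq_or_ne x x₀ with rfl | hxx
      · simp [hF]
      · have h3 := hB x hxx hx.le
        have hs : 0 < ‖x - x₀‖ := norm_pos_iff.mpr (sub_ne_zero.mpr hxx)
        simp only [hF]
        rw [norm_mul, norm_pow]
        calc ‖x - x₀‖ ^ (K + 1) * ‖ψ x‖ ≤ ‖x - x₀‖ ^ (K + 1) * (B * (r₀ / ‖x - x₀‖) ^ K) := by gcongr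
          _ = B * r₀ ^ K * ‖x - x₀‖ := by
              rw [div_pow, pow_succ]
              field_simp
  have hFne : ¬ ∀ᶠ x in 𝓝 x₀, F x = 0 := by
    intro h
    apply hne
    rw [eventually_nhdsWithin_iff]
    filter_upwards [h] with x hx hxx
    simp only [hF] at hx
    exact (mul_eq_zero.mp hx).resolve_left (pow_ne_zero _ (sub_ne_zero.mpr hxx))
  obtain ⟨m, φ, hφ, hφ0, hφe⟩ := hFan.exists_eventuallyEq_pow_smul_nonzero_iff.mpr hFne
  set N : ℤ := (m : ℤ) - ((K + 1 : ℕ) : ℤ) with hN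
  have hψe : ∀ᶠ x in 𝓝[≠] x₀, ψ x = (x - x₀) ^ N * φ x := by
    rw [eventually_nhdsWithin_iff]
    filter_upwards [hφe] with x hx hxx
    have hxx' : x - x₀ ≠ 0 := sub_ne_zero.mpr hxx
    simp only [hF, smul_eq_mul] at hx
    rw [hN, zpow_sub₀ hxx', zpow_natCast, zpow_natCast]
    rw [div_mul_eq_mul_div, eq_div_iff (pow_ne_zero _ hxx'), mul_comm (ψ x)]
    exact hx
  have hφd := hφ.deriv
  have hφan : ∀ᶠ x in 𝓝[≠] x₀, AnalyticAt ℂ φ x := (hφ.eventually_analyticAt).filter_mono nhdsWithin_le_nhds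
  have hd1 : ∀ᶠ x in 𝓝[≠] x₀, deriv ψ x = (N : ℂ) * (x - x₀) ^ (N - 1) * φ x +
      (x - x₀) ^ N * deriv φ x := by
    have e1 : deriv ψ =ᶠ[𝓝[≠] x₀] deriv (fun x => (x - x₀) ^ N * φ x) :=
      Filter.EventuallyEq.nhdsNE_deriv hψe
    filter_upwards [e1, hφan, self_mem_nhdsWithin] with x hx h2 hxx
    have hxx' : x - x₀ ≠ 0 := sub_ne_zero.mpr hxx
    rw [hx]
    have h3 : HasDerivAt (fun x : ℂ => (x - x₀) ^ N) ((N : ℂ) * (x - x₀) ^ (N - 1) * 1) x := by
      have h4 := (hasDerivAt_zpow N (x - x₀) (Or.inl hxx'))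
      exact h4.comp x ((hasDerivAt_id x).sub_const x₀)
    rw [mul_one] at h3
    exact (h3.mul h2.differentiableAt.hasDerivAt).deriv
  have hd2 : ∀ᶠ x in 𝓝[≠] x₀, deriv (deriv ψ) x = (N : ℂ) * (N - 1) * (x - x₀) ^ (N - 2) * φ x +
      2 * N * (x - x₀) ^ (N - 1) * deriv φ x + (x - x₀) ^ N * deriv (deriv φ) x := by
    have e1 : deriv (deriv ψ) =ᶠ[𝓝[≠] x₀] deriv (fun x => (N : ℂ) * (x - x₀) ^ (N - 1) * φ x +
      (x - x₀) ^ N * deriv φ x) := Filter.EventuallyEq.nhdsNE_deriv hd1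
    filter_upwards [e1, hφan, self_mem_nhdsWithin] with x hx h2 hxx
    have hxx' : x - x₀ ≠ 0 := sub_ne_zero.mpr hxx
    rw [hx]
    have h3 : HasDerivAt (fun x : ℂ => (x - x₀) ^ N) ((N : ℂ) * (x - x₀) ^ (N - 1) * 1) x := by
      have h4 := (hasDerivAt_zpow N (x - x₀) (Or.inl hxx'))
      exact h4.comp x ((hasDerivAt_id x).sub_const x₀)
    have h5 : HasDerivAt (fun x : ℂ => (x - x₀) ^ (N - 1))
        (((N - 1 : ℤ) : ℂ) * (x - x₀) ^ (N - 1 - 1) * 1) x := by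
      have h4 := (hasDerivAt_zpow (N - 1) (x - x₀) (Or.inl hxx'))
      exact h4.comp x ((hasDerivAt_id x).sub_const x₀)
    rw [mul_one] at h3 h5
    have h6 : HasDerivAt (fun x => (N : ℂ) * (x - x₀) ^ (N - 1) * φ x + (x - x₀) ^ N * deriv φ x)
      (((N : ℂ) * (((N - 1 : ℤ) : ℂ) * (x - x₀) ^ (N - 1 - 1)) * φ x +
        (N : ℂ) * (x - x₀) ^ (N - 1) * deriv φ x) +
        ((N : ℂ) * (x - x₀) ^ (N - 1) * deriv φ x + (x - x₀) ^ N * deriv (deriv φ) x)) x :=
      ((h5.const_mul (N : ℂ)).mul h2.differentiableAt.hasDerivAt).add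
      (h3.mul h2.deriv.differentiableAt.hasDerivAt)
    rw [h6.deriv]
    rw [show N - 1 - 1 = N - 2 by ring]
    push_cast
    ring
  have heq : ∀ᶠ x in 𝓝[≠] x₀, G x * φ x = (N : ℂ) * (N - 1) * φ x +
      2 * N * (x - x₀) * deriv φ x + (x - x₀) ^ 2 * deriv (deriv φ) x := by
    filter_upwards [hd2, hψe, hU, punct_mem_nhdsNE x₀ hr] with x e1 e2 e3 e4
    have hxx' : x - x₀ ≠ 0 := sub_ne_zero.mpr (mem_punct.mp e4).2
    have e5 := hode x e4
    rw [e1, e2] at e5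
    have e6 : (x - x₀) ^ N = (x - x₀) ^ (N - 2) * (x - x₀) ^ 2 := by
      rw [← zpow_natCast, ← zpow_add₀ hxx']
      congr 1
      push_cast
      ring
    have e7 : (x - x₀) ^ (N - 1) = (x - x₀) ^ (N - 2) * (x - x₀) := by
      rw [← zpow_add_one₀ hxx']
      congr 1
      ring
    rw [e6, e7] at e5
    have e8 : (x - x₀) ^ (N - 2) ≠ 0 := zpow_ne_zero _ hxx'
    apply mul_left_cancel₀ e8
    rw [← e3]
    linear_combination -e5
  refine ⟨N, φ, hφ, hφ0, hψe, heq, ?_⟩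
  -- the limit
  have hc1 : Tendsto (fun x => G x * φ x) (𝓝[≠] x₀) (𝓝 (G x₀ * φ x₀)) :=
    ((hG.continuousAt.mul hφ.continuousAt).tendsto).mono_left nhdsWithin_le_nhds
  have hc2 : Tendsto (fun x => (N : ℂ) * (N - 1) * φ x +
      2 * N * (x - x₀) * deriv φ x + (x - x₀) ^ 2 * deriv (deriv φ) x) (𝓝[≠] x₀)
      (𝓝 ((N : ℂ) * (N - 1) * φ x₀ +
      2 * N * (x₀ - x₀) * deriv φ x₀ + (x₀ - x₀) ^ 2 * deriv (deriv φ) x₀)) := by
    have hs : ContinuousAt (fun x : ℂ => x - x₀) x₀ :=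
      (continuous_id.sub continuous_const).continuousAt
    have h2 : ContinuousAt (fun x => (N : ℂ) * (N - 1) * φ x +
      2 * N * (x - x₀) * deriv φ x + (x - x₀) ^ 2 * deriv (deriv φ) x) x₀ :=
      ((continuousAt_const.mul hφ.continuousAt).add
        ((continuousAt_const.mul hs).mul hφd.continuousAt)).add
        ((hs.pow 2).mul hφd.deriv.continuousAt)
    exact h2.tendsto.mono_left nhdsWithin_le_nhds
  have h3 := tendsto_nhds_unique (hc1.congr' heq) hc2
  rw [sub_self] at h3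
  apply mul_right_cancel₀ hφ0
  linear_combination -h3

/-- A solution with nonzero data is not locally zero. -/
lemma not_eventually_zero {x₀ x₁ : ℂ} {r : ℝ} (hr : 0 < r) {ψ : ℂ → ℂ}
    (hψ : DifferentiableOn ℂ ψ (Punct x₀ r)) (h1 : x₁ ∈ Punct x₀ r)
    (h : ψ x₁ ≠ 0 ∨ deriv ψ x₁ ≠ 0) : ¬ ∀ᶠ x in 𝓝[≠] x₀, ψ x = 0 := by
  intro h0
  have hO := isOpen_punct x₀ r
  have han : AnalyticOnNhd ℂ ψ (Punct x₀ r) := hψ.analyticOnNhd hO
  have h2 : ∀ᶠ x in 𝓝[≠] x₀, ∀ᶠ z in 𝓝 x, ψ z = 0 := by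
    have h3 := eventually_eventually_nhdsWithin.mpr h0
    filter_upwards [h3, self_mem_nhdsWithin] with x hx hxx
    rw [eventually_nhdsWithin_iff] at hx
    filter_upwards [hx, isOpen_compl_singleton.mem_nhds (show x ∈ ({x₀}ᶜ : Set ℂ) from hxx)] with
      z hz hz'
    exact hz hz'
  obtain ⟨z, hz1, hz2⟩ := (h2.and (punct_mem_nhdsNE x₀ hr)).exists
  have h3 := han.eqOn_zero_of_preconnected_of_eventuallyEq_zero (punct_preconnected x₀ r hr) hz2 hz1
  have h4 : ψ =ᶠ[𝓝 x₁] fun _ => 0 := by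
    filter_upwards [hO.mem_nhds h1] with x hx
    exact h3 hx
  rcases h with h | h
  · exact h (h3 h1)
  · apply h
    rw [h4.deriv_eq]
    simp

/-- **First condition**: the leading coefficient is `N(N-1)`. -/
theorem cond_one {U G : ℂ → ℂ} {x₀ : ℂ} (h : TrivialMonodromy U 0 x₀)
    (hG : AnalyticAt ℂ G x₀) (hU : ∀ᶠ x in 𝓝[≠] x₀, (x - x₀) ^ 2 * U x = G x) :
    ∃ N : ℤ, (N : ℂ) * (N - 1) = G x₀ := by
  obtain ⟨r, hr, -, h⟩ := h
  have hx1 : x₀ + (r / 2 : ℝ) ∈ Punct x₀ r := by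
    rw [mem_punct, add_sub_cancel_left, Complex.norm_real, Real.norm_eq_abs,
      abs_of_pos (by linarith)]
    refine ⟨by linarith, ?_⟩
    intro h2
    have h3 : ((r / 2 : ℝ) : ℂ) = 0 := by simpa using h2
    rw [Complex.ofReal_eq_zero] at h3
    linarith
  obtain ⟨ψ, h1, h2, h3, h4⟩ := h _ hx1 1 0
  obtain ⟨N, φ, -, -, -, -, hN⟩ := frobenius hr h1 (fun x hx => by
    have := h4 x hx
    linear_combination -this) hG hU
    (not_eventually_zero hr h1 hx1 (Or.inl (by rw [h2]; exact one_ne_zero)))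
  exact ⟨N, hN⟩

/-- **Second condition**: if `G = 2 + (x - x₀)² V` then `V'(x₀) = 0`. -/
theorem cond_two {U V : ℂ → ℂ} {x₀ : ℂ} (h : TrivialMonodromy U 0 x₀)
    (hV : AnalyticAt ℂ V x₀)
    (hU : ∀ᶠ x in 𝓝[≠] x₀, (x - x₀) ^ 2 * U x = 2 + (x - x₀) ^ 2 * V x) :
    deriv V x₀ = 0 := by
  obtain ⟨r, hr, -, h⟩ := h
  have hx1 : x₀ + (r / 2 : ℝ) ∈ Punct x₀ r := by
    rw [mem_punct, add_sub_cancel_left, Complex.norm_real, Real.norm_eq_abs,
      abs_of_pos (by linarith)]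
    refine ⟨by linarith, ?_⟩
    intro h2
    have h3 : ((r / 2 : ℝ) : ℂ) = 0 := by simpa using h2
    rw [Complex.ofReal_eq_zero] at h3
    linarith
  have hsan : AnalyticAt ℂ (fun x : ℂ => x - x₀) x₀ := analyticAt_id.sub analyticAt_const
  have hG : AnalyticAt ℂ (fun x => 2 + (x - x₀) ^ 2 * V x) x₀ :=
    analyticAt_const.add ((hsan.pow 2).mul hV)
  have hNcase : ∀ N : ℤ, (N : ℂ) * (N - 1) = 2 + (x₀ - x₀) ^ 2 * V x₀ → N = 2 ∨ N = -1 := by
    intro N hN
    rw [sub_self] at hN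
    have h2 : N * (N - 1) = 2 := by
      have : ((N * (N - 1) : ℤ) : ℂ) = ((2 : ℤ) : ℂ) := by push_cast; linear_combination hN
      exact_mod_cast this
    have h3 : (N - 2) * (N + 1) = 0 := by linear_combination h2
    rcases mul_eq_zero.mp h3 with h4 | h4 <;> omega
  -- a solution of order -1
  obtain ⟨φ, hφ, hφ0, heq⟩ : ∃ φ : ℂ → ℂ, AnalyticAt ℂ φ x₀ ∧ φ x₀ ≠ 0 ∧
      ∀ᶠ x in 𝓝[≠] x₀, (2 + (x - x₀) ^ 2 * V x) * φ x = 2 * φ x - 2 * (x - x₀) * deriv φ x +
        (x - x₀) ^ 2 * deriv (deriv φ) x := by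
    obtain ⟨ψ1, a1, a2, a3, a4⟩ := h _ hx1 1 0
    obtain ⟨ψ2, b1, b2, b3, b4⟩ := h _ hx1 0 1
    obtain ⟨N1, φ1, c1, c2, c3, c4, c5⟩ := frobenius hr a1 (fun x hx => by
      have := a4 x hx
      linear_combination -this) hG hU
      (not_eventually_zero hr a1 hx1 (Or.inl (by rw [a2]; exact one_ne_zero)))
    obtain ⟨N2, φ2, d1, d2, d3, d4, d5⟩ := frobenius hr b1 (fun x hx => by
      have := b4 x hx
      linear_combination -this) hG hU
      (not_eventually_zero hr b1 hx1 (Or.inr (by rw [b3]; exact one_ne_zero)))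
    rcases hNcase N1 c5 with rfl | rfl
    · rcases hNcase N2 d5 with rfl | rfl
      · -- both of order two: a combination has order at least three
        set ψ3 : ℂ → ℂ := fun x => φ2 x₀ * ψ1 x - φ1 x₀ * ψ2 x with hψ3
        have hO := isOpen_punct x₀ r
        have e1 : DifferentiableOn ℂ ψ3 (Punct x₀ r) :=
          (a1.const_mul _).sub (b1.const_mul _)
        have e2 : ∀ x ∈ Punct x₀ r, deriv ψ3 x = φ2 x₀ * deriv ψ1 x - φ1 x₀ * deriv ψ2 x := by
          intro x hx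
          have f1 := (a1.differentiableAt (hO.mem_nhds hx)).hasDerivAt
          have f2 := (b1.differentiableAt (hO.mem_nhds hx)).hasDerivAt
          exact ((f1.const_mul (φ2 x₀)).sub (f2.const_mul (φ1 x₀))).deriv
        have e3 : ∀ x ∈ Punct x₀ r, deriv (deriv ψ3) x = U x * ψ3 x := by
          intro x hx
          have g1 : deriv ψ3 =ᶠ[𝓝 x] fun x => φ2 x₀ * deriv ψ1 x - φ1 x₀ * deriv ψ2 x := by
            filter_upwards [hO.mem_nhds hx] with z hz
            exact e2 z hz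
          rw [g1.deriv_eq]
          have f1 := ((a1.deriv hO).differentiableAt (hO.mem_nhds hx)).hasDerivAt
          have f2 := ((b1.deriv hO).differentiableAt (hO.mem_nhds hx)).hasDerivAt
          have f3 : HasDerivAt (fun x => φ2 x₀ * deriv ψ1 x - φ1 x₀ * deriv ψ2 x)
            (φ2 x₀ * deriv (deriv ψ1) x - φ1 x₀ * deriv (deriv ψ2) x) x :=
            (f1.const_mul (φ2 x₀)).sub (f2.const_mul (φ1 x₀))
          rw [f3.deriv]
          have g2 := a4 x hx
          have g3 := b4 x hx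
          simp only [hψ3]
          linear_combination (-(φ2 x₀)) * g2 + φ1 x₀ * g3
        obtain ⟨N3, φ3, f1, f2, f3, f4, f5⟩ := frobenius hr e1 e3 hG hU
          (not_eventually_zero hr e1 hx1 (Or.inl (by
            simp only [hψ3]
            rw [a2, b2, mul_zero, sub_zero, mul_one]
            exact d2)))
        rcases hNcase N3 f5 with rfl | rfl
        · exfalso
          have g1 : ∀ᶠ x in 𝓝[≠] x₀, φ3 x = φ2 x₀ * φ1 x - φ1 x₀ * φ2 x := by
            filter_upwards [f3, c3, d3, self_mem_nhdsWithin] with x g1 g2 g3 hxx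
            have hxx' : x - x₀ ≠ 0 := sub_ne_zero.mpr hxx
            simp only [hψ3] at g1
            rw [g2, g3] at g1
            have e8 : (x - x₀) ^ (2 : ℤ) ≠ 0 := zpow_ne_zero _ hxx'
            apply mul_left_cancel₀ e8
            rw [← g1]
            ring
          have g2 : Tendsto φ3 (𝓝[≠] x₀) (𝓝 (φ3 x₀)) :=
            f1.continuousAt.tendsto.mono_left nhdsWithin_le_nhds
          have g3 : Tendsto (fun x => φ2 x₀ * φ1 x - φ1 x₀ * φ2 x) (𝓝[≠] x₀)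
              (𝓝 (φ2 x₀ * φ1 x₀ - φ1 x₀ * φ2 x₀)) :=
            ((continuousAt_const.mul c1.continuousAt).sub
              (continuousAt_const.mul d1.continuousAt)).tendsto.mono_left nhdsWithin_le_nhds
          have g4 := tendsto_nhds_unique (g2.congr' g1) g3
          apply f2
          rw [g4]
          ring
        · refine ⟨φ3, f1, f2, ?_⟩
          filter_upwards [f4] with x hx
          push_cast at hx
          linear_combination hx
      · refine ⟨φ2, d1, d2, ?_⟩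
        filter_upwards [d4] with x hx
        push_cast at hx
        linear_combination hx
    · refine ⟨φ1, c1, c2, ?_⟩
      filter_upwards [c4] with x hx
      push_cast at hx
      linear_combination hx
  -- Taylor expansion
  set H : ℂ → ℂ := fun x => deriv (deriv φ) x - V x * φ x with hH
  have hφ1 := hφ.deriv
  have hφ2 := hφ1.deriv
  have hφ3 := hφ2.deriv
  have hHan : AnalyticAt ℂ H x₀ := hφ2.sub (hV.mul hφ)
  set F : ℂ → ℂ := fun x => -2 * deriv φ x + (x - x₀) * H x with hF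
  have hFan : AnalyticAt ℂ F x₀ := (analyticAt_const.mul hφ1).add (hsan.mul hHan)
  have hF0 : ∀ᶠ x in 𝓝[≠] x₀, F x = 0 := by
    filter_upwards [heq, self_mem_nhdsWithin] with x hx hxx
    have hxx' : x - x₀ ≠ 0 := sub_ne_zero.mpr hxx
    apply mul_left_cancel₀ hxx'
    simp only [hF, hH]
    linear_combination -hx
  have hF1 : ∀ᶠ x in 𝓝 x₀, F x = 0 :=
    (hFan.frequently_zero_iff_eventually_zero.mp hF0.frequently)
  -- first derivative near x₀
  have hHd : ∀ᶠ x in 𝓝 x₀, AnalyticAt ℂ H x := hHan.eventually_analyticAt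
  have hφd : ∀ᶠ x in 𝓝 x₀, AnalyticAt ℂ φ x := hφ.eventually_analyticAt
  have hFd : deriv F =ᶠ[𝓝 x₀] fun x => -2 * deriv (deriv φ) x + (H x + (x - x₀) * deriv H x) := by
    filter_upwards [hHd, hφd] with x h1 h2
    have e1 := (h2.deriv.differentiableAt.hasDerivAt).const_mul (-2 : ℂ)
    have e2 := ((hasDerivAt_id x).sub_const x₀).mul h1.differentiableAt.hasDerivAt
    have e3 := e1.add e2
    have e4 : HasDerivAt F (-2 * deriv (deriv φ) x + (1 * H x + (id x - x₀) * deriv H x)) x := e3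
    rw [e4.deriv]
    simp
  have hFz : F =ᶠ[𝓝 x₀] fun _ => 0 := hF1
  have hFdz : deriv F =ᶠ[𝓝 x₀] fun _ => 0 := by
    have := hFz.deriv
    simpa using this
  have hFdd : deriv (deriv F) x₀ = 0 := by
    rw [hFdz.deriv_eq]; simp
  rw [hFd.deriv_eq] at hFdd
  have e1 := (hφ2.differentiableAt.hasDerivAt).const_mul (-2 : ℂ)
  have e2 := ((hasDerivAt_id x₀).sub_const x₀).mul hHan.deriv.differentiableAt.hasDerivAt
  have e3 := e1.add (hHan.differentiableAt.hasDerivAt.add e2)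
  have e4 : HasDerivAt (fun x => -2 * deriv (deriv φ) x + (H x + (x - x₀) * deriv H x))
      (-2 * deriv (deriv (deriv φ)) x₀ + (deriv H x₀ + (1 * deriv H x₀ +
        (id x₀ - x₀) * deriv (deriv H) x₀))) x₀ := e3
  rw [e4.deriv] at hFdd
  have e5 : deriv H x₀ = deriv (deriv (deriv φ)) x₀ - (deriv V x₀ * φ x₀ + V x₀ * deriv φ x₀) := by
    have f1 := (hφ2.differentiableAt.hasDerivAt).sub
      (hV.differentiableAt.hasDerivAt.mul hφ.differentiableAt.hasDerivAt)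
    exact f1.deriv
  have e6 : deriv φ x₀ = 0 := by
    have := hF1.self_of_nhds
    simp only [hF, sub_self, zero_mul, add_zero] at this
    have h2 : (-2 : ℂ) ≠ 0 := by norm_num
    exact (mul_eq_zero.mp this).resolve_left h2
  rw [e5, e6] at hFdd
  simp only [id, sub_self, zero_mul, add_zero, mul_zero, one_mul] at hFdd
  have e7 : deriv V x₀ * φ x₀ = 0 := by linear_combination (-1 / 2) * hFdd
  exact (mul_eq_zero.mp e7).resolve_right hφ0

end Q170.MP
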