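import Pool.Agent.Q170.MP.Frob

/-! There is no monster potential of momentum zero and degree two. -/

namespace Q170.MP
open Filter Topology Set Polynomial

/-- The second derivative of `ln P(x⁴)`. -/
noncomputable def d2log (P : ℂ[X]) (x : ℂ) : ℂ := deriv (logDeriv fun z : ℂ => P.eval (z ^ 4)) x

/-- The potential `x² + (β² - 1/4) / x² - 2 (ln P(x⁴))''`. -/
noncomputable def pot (β : ℂ) (P : ℂ[X]) (x : ℂ) : ℂ :=
  x ^ 2 + (β ^ 2 - 1 / 4) / x ^ 2 - 2 * d2log P x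

/-- Monster potentials: for every `E`, all solutions of `-ψ'' + (potential) ψ = E ψ` have trivial
monodromy around each zero of `P(x⁴)` (these are the poles of `(ln P(x⁴))''`). -/
def IsMonster (β : ℂ) (P : ℂ[X]) : Prop :=
  ∀ E x₀ : ℂ, P.eval (x₀ ^ 4) = 0 → TrivialMonodromy (pot β P) E x₀

/-- The number `N_n(β)` of monster potentials of momentum `β` and degree `n`. -/
noncomputable def numMonster (β : ℂ) (n : ℕ) : ℕ∞ :=
  Set.encard {P : ℂ[X] | P.Monic ∧ P.natDegree = n ∧ IsMonster β P}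

lemma exists_two {P : ℂ[X]} (hP : P.Monic) (h2 : P.natDegree = 2) :
    ∃ s t : ℂ, P = (X - C s) * (X - C t) := by
  have hs : P.Splits := IsAlgClosed.splits P
  have hc : P.roots.card = 2 := by
    rw [← h2]
    exact (splits_iff_card_roots.mp hs)
  obtain ⟨s, t, hst⟩ := Multiset.card_eq_two.mp hc
  refine ⟨s, t, ?_⟩
  have h3 := hs.eq_prod_roots
  rw [hP.leadingCoeff, hst] at h3
  rw [h3]
  simp

/-- The part of the second logarithmic derivative coming from a root `t`. -/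
noncomputable def DD (t z : ℂ) : ℂ := (-4 * z ^ 6 - 12 * t * z ^ 2) / (z ^ 4 - t) ^ 2

lemma d2log_eq (s t z : ℂ) (hs : z ^ 4 - s ≠ 0) (ht : z ^ 4 - t ≠ 0) :
    d2log ((X - C s) * (X - C t)) z = DD s z + DD t z := by
  have h1 : ∀ᶠ w in 𝓝 z, w ^ 4 - s ≠ 0 ∧ w ^ 4 - t ≠ 0 := by
    have c1 : ContinuousAt (fun w : ℂ => w ^ 4 - s) z := by fun_prop
    have c2 : ContinuousAt (fun w : ℂ => w ^ 4 - t) z := by fun_prop
    exact (c1.eventually_ne hs).and (c2.eventually_ne ht)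
  have h2 : (logDeriv fun w : ℂ => ((X - C s) * (X - C t)).eval (w ^ 4)) =ᶠ[𝓝 z]
      fun w => 4 * w ^ 3 / (w ^ 4 - s) + 4 * w ^ 3 / (w ^ 4 - t) := by
    filter_upwards [h1] with w hw
    obtain ⟨a1, a2⟩ := hw
    rw [logDeriv_apply]
    have e1 : (fun w : ℂ => ((X - C s) * (X - C t)).eval (w ^ 4)) =
        fun w => (w ^ 4 - s) * (w ^ 4 - t) := by
      funext w; simp
    rw [e1]
    have d1 : HasDerivAt (fun w : ℂ => w ^ 4 - s) (4 * w ^ 3) w := by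
      simpa using ((hasDerivAt_pow 4 w).sub_const s)
    have d2 : HasDerivAt (fun w : ℂ => w ^ 4 - t) (4 * w ^ 3) w := by
      simpa using ((hasDerivAt_pow 4 w).sub_const t)
    rw [(d1.fun_mul d2).deriv]
    simp only [eval_mul, eval_sub, eval_X, eval_C]
    field_simp
  rw [d2log, h2.deriv_eq]
  have key : ∀ t : ℂ, z ^ 4 - t ≠ 0 → HasDerivAt (fun w : ℂ => 4 * w ^ 3 / (w ^ 4 - t)) (DD t z) z := by
    intro t ht
    have d1 : HasDerivAt (fun w : ℂ => w ^ 4 - t) (4 * z ^ 3) z := by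
      simpa using ((hasDerivAt_pow 4 z).sub_const t)
    have d2 : HasDerivAt (fun w : ℂ => 4 * w ^ 3) (4 * (3 * z ^ 2)) z := by
      simpa using ((hasDerivAt_pow 3 z).const_mul (4 : ℂ))
    refine (d2.fun_div d1 ht).congr_deriv ?_
    unfold DD
    congr 1
    ring
  exact ((key s hs).fun_add (key t ht)).deriv

lemma DD_four (x₀ z : ℂ) (h1 : z - x₀ ≠ 0) (h2 : z + x₀ ≠ 0) (h3 : z ^ 2 + x₀ ^ 2 ≠ 0) :
    DD (x₀ ^ 4) z = -1 / (z - x₀) ^ 2 + (-1 / (z + x₀) ^ 2 +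
      (2 * x₀ ^ 2 - 2 * z ^ 2) / (z ^ 2 + x₀ ^ 2) ^ 2) := by
  have h4 : z ^ 4 - x₀ ^ 4 = (z - x₀) * (z + x₀) * (z ^ 2 + x₀ ^ 2) := by ring
  unfold DD
  rw [h4]
  field_simp
  ring

lemma int_ne {N : ℤ} {a : ℂ} (h : (N : ℂ) * (N - 1) = a) (k : ℤ) (hk : 4 * a + 1 = k) :
    (2 * N - 1) ^ 2 = k := by
  have : (((2 * N - 1) ^ 2 : ℤ) : ℂ) = (k : ℂ) := by
    rw [← hk, ← h]; push_cast; ring
  exact_mod_cast this

/-- Zero is not a root. -/
lemma root_ne_zero {s t : ℂ} (h : IsMonster 0 ((X - C s) * (X - C t))) : s ≠ 0 := by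
  rintro rfl
  have h0 := h 0 0 (by simp)
  rcases eq_or_ne t 0 with rfl | ht
  · obtain ⟨N, hN⟩ := cond_one (G := fun z => z ^ 4 - 1 / 4 + 16) h0 (by fun_prop) (by
      filter_upwards [self_mem_nhdsWithin] with z hz
      have hz' : z ≠ 0 := hz
      have hz4 : z ^ 4 - 0 ≠ 0 := by simpa using hz'
      rw [pot, d2log_eq 0 0 z hz4 hz4, DD]
      field_simp
      ring)
    have h2 := int_ne hN 64 (by norm_num)
    have h3 : (2 * N - 1 - 8) * (2 * N - 1 + 8) = 0 := by linear_combination h2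
    rcases mul_eq_zero.mp h3 with h4 | h4 <;> omega
  · obtain ⟨N, hN⟩ := cond_one (G := fun z => z ^ 4 - 1 / 4 + 8 - 2 * z ^ 2 * DD t z) h0 (by
        unfold DD
        have : (fun z : ℂ => (z ^ 4 - t) ^ 2) 0 ≠ 0 := by simpa using ht
        fun_prop (disch := simpa using ht)) (by
      have c2 : ContinuousAt (fun w : ℂ => w ^ 4 - t) 0 := by fun_prop
      have c3 := c2.eventually_ne (show (0 : ℂ) ^ 4 - t ≠ 0 by simpa using ht)
      filter_upwards [self_mem_nhdsWithin, c3.filter_mono nhdsWithin_le_nhds] with z hz hz2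
      have hz' : z ≠ 0 := hz
      have hz4 : z ^ 4 - 0 ≠ 0 := by simpa using hz'
      rw [pot, d2log_eq 0 t z hz4 hz2]
      have : DD 0 z = -4 / z ^ 2 := by
        unfold DD
        field_simp
        ring
      rw [this]
      field_simp
      ring)
    have h2 := int_ne hN 32 (by norm_num)
    have h3 : (2 * N - 1) ^ 2 = 32 := h2
    have h4 : (2 * N - 1) < 6 := by nlinarith
    have h5 : -6 < (2 * N - 1) := by nlinarith
    have h6 : N = -2 ∨ N = -1 ∨ N = 0 ∨ N = 1 ∨ N = 2 ∨ N = 3 := by omega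
    rcases h6 with rfl | rfl | rfl | rfl | rfl | rfl <;> norm_num at h3

lemma exists_fourth (t : ℂ) : ∃ x : ℂ, x ^ 4 = t := IsAlgClosed.exists_pow_nat_eq t (by norm_num)

/-- The two roots are distinct. -/
lemma root_ne {s : ℂ} (hs : s ≠ 0) : ¬ IsMonster 0 ((X - C s) * (X - C s)) := by
  intro h
  obtain ⟨x₀, rfl⟩ := exists_fourth s
  have hx : x₀ ≠ 0 := by rintro rfl; simp at hs
  have h0 := h 0 x₀ (by simp)
  have g1 : x₀ + x₀ ≠ 0 := by rw [← two_mul]; exact mul_ne_zero two_ne_zero hx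
  have g2 : x₀ ^ 2 + x₀ ^ 2 ≠ 0 := by rw [← two_mul]; exact mul_ne_zero two_ne_zero (pow_ne_zero 2 hx)
  obtain ⟨N, hN⟩ := cond_one (G := fun z => 4 + (z - x₀) ^ 2 * (z ^ 2 - 1 / 4 / z ^ 2 -
      4 * (-1 / (z + x₀) ^ 2 + (2 * x₀ ^ 2 - 2 * z ^ 2) / (z ^ 2 + x₀ ^ 2) ^ 2))) h0 (by
    fun_prop (disch := simp_all)) (by
    have c1 : ContinuousAt (fun w : ℂ => w + x₀) x₀ := by fun_prop
    have c2 : ContinuousAt (fun w : ℂ => w ^ 2 + x₀ ^ 2) x₀ := by fun_prop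
    have c3 : ContinuousAt (fun w : ℂ => w) x₀ := by fun_prop
    filter_upwards [self_mem_nhdsWithin, (c1.eventually_ne g1).filter_mono nhdsWithin_le_nhds,
      (c2.eventually_ne g2).filter_mono nhdsWithin_le_nhds,
      (c3.eventually_ne hx).filter_mono nhdsWithin_le_nhds] with z hz hz1 hz2 hz3
    have hz' : z - x₀ ≠ 0 := sub_ne_zero.mpr hz
    have h4 : z ^ 4 - x₀ ^ 4 ≠ 0 := by
      rw [show z ^ 4 - x₀ ^ 4 = (z - x₀) * (z + x₀) * (z ^ 2 + x₀ ^ 2) by ring]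
      exact mul_ne_zero (mul_ne_zero hz' hz1) hz2
    rw [pot, d2log_eq _ _ z h4 h4, DD_four x₀ z hz' hz1 hz2]
    generalize (-1 / (z + x₀) ^ 2 + (2 * x₀ ^ 2 - 2 * z ^ 2) / (z ^ 2 + x₀ ^ 2) ^ 2) = e
    field_simp
    ring)
  have h2 := int_ne hN 17 (by norm_num)
  have h3 : (2 * N - 1) ^ 2 = 17 := h2
  have h4 : (2 * N - 1) < 6 := by nlinarith
  have h5 : -6 < (2 * N - 1) := by nlinarith
  have h6 : N = -2 ∨ N = -1 ∨ N = 0 ∨ N = 1 ∨ N = 2 ∨ N = 3 := by omega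
  rcases h6 with rfl | rfl | rfl | rfl | rfl | rfl <;> norm_num at h3

/-- The equation at a root. -/
lemma root_eq {s t : ℂ} (hs : s ≠ 0) (hst : s ≠ t) (h : IsMonster 0 ((X - C s) * (X - C t))) :
    (s + 1) * (s - t) ^ 3 = 8 * s ^ 3 + 96 * s ^ 2 * t + 24 * s * t ^ 2 := by
  obtain ⟨x₀, rfl⟩ := exists_fourth s
  have hx : x₀ ≠ 0 := by rintro rfl; simp at hs
  have h0 := h 0 x₀ (by simp)
  have g1 : x₀ + x₀ ≠ 0 := by rw [← two_mul]; exact mul_ne_zero two_ne_zero hx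
  have g2 : x₀ ^ 2 + x₀ ^ 2 ≠ 0 := by rw [← two_mul]; exact mul_ne_zero two_ne_zero (pow_ne_zero 2 hx)
  have g3 : x₀ ^ 4 - t ≠ 0 := sub_ne_zero.mpr hst
  have h1 := cond_two (V := fun z => z ^ 2 - 1 / 4 / z ^ 2 -
      2 * (-1 / (z + x₀) ^ 2 + (2 * x₀ ^ 2 - 2 * z ^ 2) / (z ^ 2 + x₀ ^ 2) ^ 2) - 2 * DD t z) h0 (by
    unfold DD
    fun_prop (disch := simp_all)) (by
    have c1 : ContinuousAt (fun w : ℂ => w + x₀) x₀ := by fun_prop
    have c2 : ContinuousAt (fun w : ℂ => w ^ 2 + x₀ ^ 2) x₀ := by fun_prop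
    have c3 : ContinuousAt (fun w : ℂ => w) x₀ := by fun_prop
    have c4 : ContinuousAt (fun w : ℂ => w ^ 4 - t) x₀ := by fun_prop
    filter_upwards [self_mem_nhdsWithin, (c1.eventually_ne g1).filter_mono nhdsWithin_le_nhds,
      (c2.eventually_ne g2).filter_mono nhdsWithin_le_nhds,
      (c3.eventually_ne hx).filter_mono nhdsWithin_le_nhds,
      (c4.eventually_ne g3).filter_mono nhdsWithin_le_nhds] with z hz hz1 hz2 hz3 hz5
    have hz' : z - x₀ ≠ 0 := sub_ne_zero.mpr hz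
    have h4 : z ^ 4 - x₀ ^ 4 ≠ 0 := by
      rw [show z ^ 4 - x₀ ^ 4 = (z - x₀) * (z + x₀) * (z ^ 2 + x₀ ^ 2) by ring]
      exact mul_ne_zero (mul_ne_zero hz' hz1) hz2
    rw [pot, d2log_eq _ _ z h4 hz5, DD_four x₀ z hz' hz1 hz2]
    generalize (-1 / (z + x₀) ^ 2 + (2 * x₀ ^ 2 - 2 * z ^ 2) / (z ^ 2 + x₀ ^ 2) ^ 2) = e
    field_simp
    ring)
  -- the derivative
  have d1 : HasDerivAt (fun z : ℂ => z ^ 2) (2 * x₀) x₀ := by
    simpa using (hasDerivAt_pow 2 x₀)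
  have d2 : HasDerivAt (fun z : ℂ => 1 / 4 / z ^ 2) (-(1 / 4 * (2 * x₀)) / (x₀ ^ 2) ^ 2) x₀ := by
    have := (hasDerivAt_const x₀ (1 / 4 : ℂ)).fun_div d1 (pow_ne_zero 2 hx)
    simpa using this
  have d3 : HasDerivAt (fun z : ℂ => (z + x₀) ^ 2) (2 * (x₀ + x₀)) x₀ := by
    have := ((hasDerivAt_id x₀).add_const x₀).fun_pow 2
    simpa using this
  have d4 : HasDerivAt (fun z : ℂ => -1 / (z + x₀) ^ 2)
      (-(-1 * (2 * (x₀ + x₀))) / ((x₀ + x₀) ^ 2) ^ 2) x₀ := by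
    have := (hasDerivAt_const x₀ (-1 : ℂ)).fun_div d3 (pow_ne_zero 2 g1)
    simpa using this
  have d5 : HasDerivAt (fun z : ℂ => (z ^ 2 + x₀ ^ 2) ^ 2) (2 * (x₀ ^ 2 + x₀ ^ 2) * (2 * x₀)) x₀ := by
    have := (d1.add_const (x₀ ^ 2)).fun_pow 2
    simpa using this
  have d6 : HasDerivAt (fun z : ℂ => 2 * x₀ ^ 2 - 2 * z ^ 2) (-(2 * (2 * x₀))) x₀ := by
    exact (d1.const_mul 2).const_sub (2 * x₀ ^ 2)
  have d7 := d6.fun_div d5 (pow_ne_zero 2 g2)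
  have d8 : HasDerivAt (fun z : ℂ => z ^ 4 - t) (4 * x₀ ^ 3) x₀ := by
    simpa using ((hasDerivAt_pow 4 x₀).sub_const t)
  have d9 : HasDerivAt (fun z : ℂ => (z ^ 4 - t) ^ 2) (2 * (x₀ ^ 4 - t) * (4 * x₀ ^ 3)) x₀ := by
    have := d8.fun_pow 2
    simpa using this
  have d10 : HasDerivAt (fun z : ℂ => -4 * z ^ 6 - 12 * t * z ^ 2)
      (-4 * (6 * x₀ ^ 5) - 12 * t * (2 * x₀)) x₀ := by
    have e1 : HasDerivAt (fun z : ℂ => z ^ 6) (6 * x₀ ^ 5) x₀ := by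
      simpa using (hasDerivAt_pow 6 x₀)
    exact (e1.const_mul (-4)).fun_sub (d1.const_mul (12 * t))
  have d11 := d10.fun_div d9 (pow_ne_zero 2 g3)
  have d12 := ((d1.fun_sub d2).fun_sub ((d4.fun_add d7).const_mul 2)).fun_sub (d11.const_mul 2)
  have d13 : HasDerivAt (fun z => z ^ 2 - 1 / 4 / z ^ 2 -
      2 * (-1 / (z + x₀) ^ 2 + (2 * x₀ ^ 2 - 2 * z ^ 2) / (z ^ 2 + x₀ ^ 2) ^ 2) - 2 * DD t z) _ x₀ :=
    d12
  rw [d13.deriv] at h1
  have h5 : 2 * x₀ + 2 / x₀ ^ 3 -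
      2 * ((8 * x₀ ^ 9 + 96 * t * x₀ ^ 5 + 24 * t ^ 2 * x₀) / (x₀ ^ 4 - t) ^ 3) = 0 := by
    rw [← h1]
    have g1' : x₀ + x₀ = 2 * x₀ := by ring
    have g2' : x₀ ^ 2 + x₀ ^ 2 = 2 * x₀ ^ 2 := by ring
    rw [g1', g2']
    field_simp
    ring
  have h6 : 2 * x₀ + 2 / x₀ ^ 3 =
      2 * ((8 * x₀ ^ 9 + 96 * t * x₀ ^ 5 + 24 * t ^ 2 * x₀) / (x₀ ^ 4 - t) ^ 3) :=
    sub_eq_zero.mp h5
  have h7 : (x₀ ^ 4 + 1) * (x₀ ^ 4 - t) ^ 3 =
      x₀ ^ 3 * (x₀ ^ 4 - t) ^ 3 / 2 * (2 * x₀ + 2 / x₀ ^ 3) := by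
    field_simp
  rw [h7, h6]
  field_simp

/-- There is no monster potential of momentum zero and degree two. -/
theorem no_monster {P : ℂ[X]} (hP : P.Monic) (h2 : P.natDegree = 2) : ¬ IsMonster 0 P := by
  intro h
  obtain ⟨s, t, rfl⟩ := exists_two hP h2
  have hs := root_ne_zero h
  have h' : IsMonster 0 ((X - C t) * (X - C s)) := by rw [mul_comm]; exact h
  have ht := root_ne_zero h'
  have hst : s ≠ t := by
    rintro rfl
    exact root_ne hs h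
  have e1 := root_eq hs hst h
  have e2 := root_eq ht hst.symm h'
  have hd : s - t ≠ 0 := sub_ne_zero.mpr hst
  -- sum and difference
  have f1 : ((s - t) ^ 2) ^ 2 + 24 * (s + t) * (s - t) ^ 2 - 32 * (s + t) ^ 3 = 0 := by
    linear_combination e1 + e2
  have f2 : (s + t + 18) * (s - t) ^ 2 = 24 * (s + t) ^ 2 := by
    apply mul_left_cancel₀ hd
    linear_combination e1 - e2
  have f3 : (s + t) ^ 5 = 0 := by
    have : 32 * (s + t) ^ 5 = 0 := by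
      linear_combination (-(s + t + 18) ^ 2) * f1 +
        ((s + t + 18) * (s - t) ^ 2 + 24 * (s + t) ^ 2 + 24 * (s + t) * (s + t + 18)) * f2
    simpa using this
  have f4 : s + t = 0 := by simpa using f3
  rw [f4] at f2
  have f5 : (s - t) ^ 2 = 0 := by linear_combination (1 / 18 : ℂ) * f2
  exact hd (by simpa using f5)

theorem numMonster_zero_two : numMonster 0 2 = 0 := by
  unfold numMonster
  rw [Set.encard_eq_zero, Set.eq_empty_iff_forall_notMem]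
  rintro P ⟨h1, h2, h3⟩
  exact no_monster h1 h2 h3

end Q170.MP
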