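import Pool.Agent.Helper855.GkoVir

/-! The degree two part of the irreducible Virasoro module with `c = -2`, `h = -1/8`. -/

namespace Q170.MP
open Pool.Agent.Helper855.Gko

/-- `d_n^{(β)}`: the dimension of the degree `n` part of the irreducible highest weight module of
central charge `-2` and highest weight `(β² - 1) / 8`. -/
noncomputable def dimIrr (β : ℂ) (n : ℕ) : ℕ :=
  Module.finrank ℂ (degreePart ℂ (svac ℂ (-2) ((β ^ 2 - 1) / 8)) n)

noncomputable abbrev sv : Simple ℂ (-2) ((0 ^ 2 - 1) / 8) := svac ℂ (-2) ((0 ^ 2 - 1) / 8)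

lemma svHW : HW (-2 : ℂ) ((0 ^ 2 - 1) / 8) sv := svacHW

lemma k_p1_m1 (x : Simple ℂ (-2) ((0 ^ 2 - 1) / 8)) :
    uL ℂ 1 • uL ℂ (-1) • x = uL ℂ (-1) • uL ℂ 1 • x + (2 : ℂ) • uL ℂ 0 • x := by
  rw [uL_smul_comm, if_pos (by norm_num)]
  have : cen ℂ 1 = 0 := by simp [cen, binom3]
  rw [this, zero_smul, add_zero]
  norm_num

lemma k_p2_m1 (x : Simple ℂ (-2) ((0 ^ 2 - 1) / 8)) :
    uL ℂ 2 • uL ℂ (-1) • x = uL ℂ (-1) • uL ℂ 2 • x + (3 : ℂ) • uL ℂ 1 • x := by
  rw [uL_smul_comm, if_neg (by norm_num), zero_smul, add_zero]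
  norm_num

lemma L2m2 : uL ℂ 2 • uL ℂ (-2) • sv = (-3 / 2 : ℂ) • sv := by
  rw [k_p2_m2 svHW, svHW.pos 2 (by norm_num), svHW.zero, smul_zero, zero_add, smul_smul,
    ← add_smul]
  congr 1
  norm_num

lemma Lm2_ne : uL ℂ (-2) • sv ≠ 0 := by
  intro h
  have h2 := L2m2
  rw [h, smul_zero] at h2
  rcases smul_eq_zero.mp h2.symm with h3 | h3
  · norm_num at h3
  · exact svac_ne h3

lemma L0m1 : uL ℂ 0 • uL ℂ (-1) • sv = ((0 ^ 2 - 1) / 8 + 1 : ℂ) • uL ℂ (-1) • sv := by
  have hd : uL ℂ (-1) • sv ∈ degreePart ℂ sv 1 := by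
    have := mono_mem (F := ℂ) (v := sv) (l := [1]) (by simp)
    simpa [mono_cons, mono_nil] using this
  have := svHW.L0 hd
  rw [this]
  norm_num

/-- The singular vector of degree two. -/
lemma sing_two : uL ℂ (-1) • uL ℂ (-1) • sv = (1 / 2 : ℂ) • uL ℂ (-2) • sv := by
  have m11 : uL ℂ (-1) • uL ℂ (-1) • sv ∈ degreePart ℂ sv 2 := by
    have := mono_mem (F := ℂ) (v := sv) (l := [1, 1]) (by simp)
    simpa [mono_cons, mono_nil, mul_smul] using this
  have m2 : uL ℂ (-2) • sv ∈ degreePart ℂ sv 2 := by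
    have := mono_mem (F := ℂ) (v := sv) (l := [2]) (by simp)
    simpa [mono_cons, mono_nil] using this
  set w := uL ℂ (-1) • uL ℂ (-1) • sv - (1 / 2 : ℂ) • uL ℂ (-2) • sv with hw
  have hwd : w ∈ degreePart ℂ sv 2 := sub_mem m11 (Submodule.smul_mem _ _ m2)
  have h1 := svHW.pos 1 (by norm_num)
  have h2 := svHW.pos 2 (by norm_num)
  have h0 := svHW.zero
  have hall : ∀ n : ℤ, 0 < n → uL ℂ n • w = 0 := by
    intro n hn
    have hcase : n = 1 ∨ n = 2 ∨ 2 < n := by omega
    rcases hcase with rfl | rfl | hn2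
    · rw [hw, smul_sub, usc, k_p1_m2, h1, smul_zero, zero_add, k_p1_m1, k_p1_m1, h1,
        smul_zero, zero_add, h0, L0m1]
      rw [usc, usc]
      generalize uL ℂ (-1) • sv = z
      match_scalars
      norm_num
    · rw [hw, smul_sub, usc, L2m2, k_p2_m1, k_p2_m1, k_p1_m1, h1, h2, h0]
      simp only [smul_zero, zero_add]
      match_scalars
      norm_num
    · have := svHW.act_dP (k := 2) (x := w) (by
        have e := dP_nat (v := sv) (F := ℂ) 2
        rw [show ((2 : ℕ) : ℤ) = 2 from rfl] at e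
        rw [e]
        exact hwd) n
      unfold dP at this
      rw [if_pos (by omega), Submodule.mem_bot] at this
      exact this
  obtain ⟨a, ha⟩ := sing_simple hall
  have e1 := svHW.L0 hwd
  rw [ha, smul_comm, h0, smul_smul, smul_smul] at e1
  have e2 : a = 0 := by
    have h3 : (a * ((0 ^ 2 - 1) / 8) - ((0 ^ 2 - 1) / 8 + ((2 : ℕ) : ℂ)) * a) • sv = 0 := by
      rw [sub_smul, e1, sub_self]
    rcases smul_eq_zero.mp h3 with h4 | h4
    · push_cast at h4
      linear_combination (-1 / 2 : ℂ) * h4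
    · exact absurd h4 svac_ne
  rw [e2, zero_smul] at ha
  exact sub_eq_zero.mp ha

theorem dimIrr_zero_two : dimIrr 0 2 = 1 := by
  have m2 : uL ℂ (-2) • sv ∈ degreePart ℂ sv 2 := by
    have := mono_mem (F := ℂ) (v := sv) (l := [2]) (by simp)
    simpa [mono_cons, mono_nil] using this
  unfold dimIrr
  change Module.finrank ℂ (degreePart ℂ sv 2) = 1
  have hspan : degreePart ℂ sv 2 = Submodule.span ℂ {uL ℂ (-2) • sv} := by
    apply le_antisymm
    · unfold degreePart
      rw [Submodule.span_le]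
      rintro x ⟨l, hl, hs, rfl⟩
      have hcase : l = [2] ∨ l = [1, 1] := by
        match l, hl, hs with
        | [], _, hs => simp at hs
        | [a], _, hs => left; simp at hs; rw [hs]
        | [a, b], hl, hs =>
          right
          have ha := hl a (by simp)
          have hb := hl b (by simp)
          simp at hs
          have : a = 1 := by omega
          have : b = 1 := by omega
          subst_vars
          rfl
        | a :: b :: c :: l, hl, hs =>
          have ha := hl a (by simp)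
          have hb := hl b (by simp)
          have hc := hl c (by simp)
          simp at hs
          omega
      rcases hcase with rfl | rfl
      · have : mono ℂ [2] • sv = uL ℂ (-2) • sv := by simp [mono_cons, mono_nil]
        rw [this]
        exact Submodule.mem_span_singleton_self _
      · have : mono ℂ [1, 1] • sv = uL ℂ (-1) • uL ℂ (-1) • sv := by
          simp [mono_cons, mono_nil, mul_smul]
        rw [this, sing_two]
        exact Submodule.smul_mem _ _ (Submodule.mem_span_singleton_self _)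
    · rw [Submodule.span_le]
      rintro x rfl
      exact m2
  rw [hspan]
  exact finrank_span_singleton Lm2_ne

end Q170.MP
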